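import Pool.Agent.H89.L.Z125_UN_Bnd

/-!
# Families of properties: infinitely many common indices
-/

set_option autoImplicit false

open CategoryTheory AlgebraicGeometry MvPolynomial Filter

namespace Pool.Agent.H79.OR

open Pool.Agent.Y116.UV Pool.Agent.Z125.UN

variable {R : Type} [CommRing R] {sep : Prop} {I : Type} {P : I → Sch R → Prop}

/-- For every finite list of schemes in the class `K` there are infinitely many indices `v` such that all
members of the list have the property `P v`. -/
def Common (P : I → Sch R → Prop) (K : Sch R → Prop) : Prop :=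
  ∀ L : List (Sch R), (∀ X ∈ L, K X) → {v | ∀ X ∈ L, P v X}.Infinite

/-- Closure properties along a filter. -/
theorem bnd_filter (𝓕 : Filter I) (h : ∀ v, Bnd sep (P v)) :
    Bnd sep (fun X => ∀ᶠ v in 𝓕, P v X) where
  iso hX e h1 := h1.mono fun v hv => (h v).iso hX e hv
  total i j hX ht h1 h2 := (h1.and h2).mono fun v hv => (h v).total i j hX ht hv.1 hv.2
  opened i j hX ht h1 h2 := (h1.and h2).mono fun v hv => (h v).opened i j hX ht hv.1 hv.2
  closed i j hX ht h1 h2 := (h1.and h2).mono fun v hv => (h v).closed i j hX ht hv.1 hv.2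
  space n := Eventually.of_forall fun v => (h v).space n
  jouanolou A _ _ _ m f U j hj hr h1 := h1.mono fun v hv => (h v).jouanolou A m f U j hj hr hv
  torus A _ _ _ h1 := h1.mono fun v hv => (h v).torus A hv
  bundle A _ _ _ m f U j hj hr h1 := h1.mono fun v hv => (h v).bundle A m f U j hj hr hv

/-- The filter of the class `E`. -/
def common (P : I → Sch R → Prop) (E : Sch R → Prop) : Filter I :=
  Filter.generate {S | (∃ X, E X ∧ S = {v | P v X}) ∨ Sᶜ.Finite}

lemma mem_common {E : Sch R → Prop} {X : Sch R} (hX : E X) : ∀ᶠ v in common P E, P v X :=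
  Filter.GenerateSets.basic (Or.inl ⟨X, hX, rfl⟩)

lemma common_neBot {E : Sch R → Prop} (h : Common P E) : (common P E).NeBot := by
  rw [common, Filter.generate_neBot_iff]
  intro t ht htf
  have key : ∃ (L : List (Sch R)) (B : Set I), (∀ X ∈ L, E X) ∧ B.Finite ∧
      {v | ∀ X ∈ L, P v X} \ B ⊆ ⋂₀ t := by
    induction t, htf using Set.Finite.induction_on with
    | empty => exact ⟨[], ∅, by simp, Set.finite_empty, by simp⟩
    | @insert S t _ _ ih =>
      obtain ⟨L, B, hL, hB, hs⟩ := ih fun x hx => ht (Set.mem_insert_of_mem _ hx)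
      rcases ht (Set.mem_insert _ _) with ⟨X, hX, rfl⟩ | hS
      · refine ⟨X :: L, B, ?_, hB, ?_⟩
        · intro Y hY
          rcases List.mem_cons.mp hY with rfl | hY
          · exact hX
          · exact hL Y hY
        · rintro v ⟨hv, hvB⟩
          rw [Set.sInter_insert]
          exact ⟨hv X List.mem_cons_self,
            hs ⟨fun Y hY => hv Y (List.mem_cons_of_mem _ hY), hvB⟩⟩
      · refine ⟨L, B ∪ Sᶜ, hL, hB.union hS, ?_⟩
        rintro v ⟨hv, hvB⟩
        rw [Set.sInter_insert]
        rw [Set.mem_union, not_or, Set.mem_compl_iff, not_not] at hvB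
        exact ⟨hvB.2, hs ⟨hv, hvB.1⟩⟩
  obtain ⟨L, B, hL, hB, hs⟩ := key
  exact ((h L hL).sdiff hB).nonempty.mono hs

/-- If `P` along every filter passes from the class `E` to the class `K`, then so do common indices. -/
theorem common_of {E K : Sch R → Prop}
    (hder : ∀ 𝓕 : Filter I, (∀ X, E X → ∀ᶠ v in 𝓕, P v X) → ∀ X, K X → ∀ᶠ v in 𝓕, P v X)
    (h : Common P E) : Common P K := by
  intro L hL hfin
  have h0 := common_neBot h
  have h1 : ∀ L : List (Sch R), (∀ X ∈ L, K X) → ∀ᶠ v in common P E, ∀ X ∈ L, P v X := by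
    intro L
    induction L with
    | nil => exact fun _ => Eventually.of_forall fun v X hX => absurd hX List.not_mem_nil
    | cons X L ih =>
      intro hL
      have h2 := hder _ (fun X hX => mem_common hX) X (hL X List.mem_cons_self)
      have h3 := ih fun Y hY => hL Y (List.mem_cons_of_mem _ hY)
      filter_upwards [h2, h3] with v h4 h5 Y hY
      rcases List.mem_cons.mp hY with rfl | hY
      · exact h4
      · exact h5 Y hY
  have h2 : ({v | ∀ X ∈ L, P v X}ᶜ : Set I) ∈ common P E :=
    Filter.GenerateSets.basic (Or.inr (by rwa [compl_compl]))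
  have h3 := h1 L hL
  have h4 : (∅ : Set I) ∈ common P E := by
    have h5 := Filter.inter_mem h3 h2
    have h6 : {v | ∀ X ∈ L, P v X} ∩ {v | ∀ X ∈ L, P v X}ᶜ = (∅ : Set I) := Set.inter_compl_self _
    rw [← h6]
    exact h5
  exact h0.ne (Filter.empty_mem_iff_bot.mp h4)

lemma common_mono {E K : Sch R → Prop} (hEK : ∀ X, E X → K X) (h : Common P K) : Common P E :=
  fun L hL => h L fun X hX => hEK X (hL X hX)

/-- Two classes which generate each other. -/
theorem common_iff {E K : Sch R → Prop}
    (hder : ∀ 𝓕 : Filter I, (∀ X, K X → ∀ᶠ v in 𝓕, P v X) ↔ (∀ X, E X → ∀ᶠ v in 𝓕, P v X)) :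
    Common P K ↔ Common P E :=
  ⟨common_of fun 𝓕 => (hder 𝓕).mp, common_of fun 𝓕 => (hder 𝓕).mpr⟩

end Pool.Agent.H79.OR
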