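import Pool.Agent.H79.OR.Real
import Pool.Agent.H79.L.W5h68_BT_Cls
import Pool.Agent.H79.L.W5h68_SP_CycDefs
import Pool.Agent.H89.Dev.Main

/-!
# Products and coverings: ordinary places of the schemes built from schemes of small dimension
-/

set_option autoImplicit false

open CategoryTheory CategoryTheory.Limits AlgebraicGeometry TensorProduct Pool.Agent.Y116.UV
  Pool.Agent.Z125.UN Pool.Agent.Q193.LT Pool.Agent.H89.Dev Pool.Agent.W5h68.SP Pool.Agent.W5h68.PJ
  Pool.Agent.W5h68.BT

universe u v

namespace Pool.Agent.H79.OR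

section

variable {A : Type u} [Category.{v} A] [Abelian A]

/-- An object which is embedded by a finite sum of morphisms which factor through objects of a Serre
class is in the Serre class. -/
theorem of_sum {S : A → Prop} (hS : IsSerre S) {ι : Type} (s : Finset ι) {H : A} {B : ι → A}
    (σ : ∀ i, B i ⟶ H) (hB : ∀ i ∈ s, S (B i)) : ∀ {K : A} (m : K ⟶ H) (q : ∀ i, K ⟶ B i), Mono m →
      m = ∑ i ∈ s, q i ≫ σ i → S K := by
  classical
  induction s using Finset.induction_on with
  | empty =>
    intro K m q hm h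
    rw [Finset.sum_empty] at h
    subst h
    exact hS.zero K (IsZero.of_mono_eq_zero (0 : K ⟶ H) rfl)
  | @insert a s ha ih =>
    intro K m q hm h
    rw [Finset.sum_insert ha] at h
    have h1 : S (kernel (q a)) := by
      refine ih (fun i hi => hB i (Finset.mem_insert_of_mem hi)) (kernel.ι (q a) ≫ m)
        (fun i => kernel.ι (q a) ≫ q i) inferInstance ?_
      rw [h, Preadditive.comp_add, ← Category.assoc, kernel.condition, zero_comp, zero_add,
        Preadditive.comp_sum]
      simp only [Category.assoc]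
    exact hS.mid (kernel.ι (q a)) (q a) (kernel.condition _)
      (ShortComplex.exact_of_f_is_kernel _ (kernelIsKernel (q a))) h1
      (hB a (Finset.mem_insert_self _ _))

/-- `X` is the direct sum of the objects `B i`, `i ∈ S`. -/
def IsSum {ι : Type} (S : Finset ι) (B : ι → A) (X : A) : Prop :=
  ∃ (s : ∀ i, B i ⟶ X) (p : ∀ i, X ⟶ B i), (∀ i ∈ S, s i ≫ p i = 𝟙 (B i)) ∧
    (∀ i ∈ S, ∀ j ∈ S, i ≠ j → s i ≫ p j = 0) ∧ ∑ i ∈ S, p i ≫ s i = 𝟙 X

/-- Finite direct sums. -/
theorem of_isSum {S : A → Prop} (hS : IsSerre S) {ι : Type} {s : Finset ι} {B : ι → A} {X : A}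
    (hX : IsSum s B X) (hB : ∀ i ∈ s, S (B i)) : S X := by
  obtain ⟨σ, p, _, _, h⟩ := hX
  exact of_sum hS s σ hB (𝟙 _) p inferInstance h.symm

end

/-- `X` is a direct factor of `Y`. -/
def IsRetract {C : Type u} [Category.{v} C] (X Y : C) : Prop :=
  ∃ (s : X ⟶ Y) (r : Y ⟶ X), s ≫ r = 𝟙 X

/-- All sums of an element of `M` and an element of `N`, with multiplicities. -/
def sums (M N : Multiset ℚ) : Multiset ℚ := (M ×ˢ N).map fun x => x.1 + x.2

variable {F : Type} [Field F]

/-- Further standard properties of the objects `H v n X = H^n_c(X, ℚ_p)`, with the tensor product `ten v`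
of representations.

* `newton_ten`, `hodge_ten`: the slopes of a tensor product are the sums of the slopes of the factors;
* `bounded`: `H v n X` is nonzero only for finitely many `n`;
* `kunneth`: the Künneth formula `H^n_c(X × Y) = ⊕_i H^i_c(X) ⊗ H^{n - i}_c(Y)` for affine `X`, `Y` (the
  sum is over any finite set of degrees which contains all those with a nonzero term of `X`);
* `covering`: for a unit `u` of `A` the cohomology of `Spec A` is a direct factor of the cohomology of its
  finite étale covering `Spec A[s] / (s ^ d - u)`. -/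
structure IsRealizationK (T : Realizations F) (ten : ∀ v, T.C v → T.C v → T.C v) : Prop
    extends IsRealization T where
  newton_ten : ∀ v (A B : T.C v),
    (T.slopes v).newton (ten v A B) = sums ((T.slopes v).newton A) ((T.slopes v).newton B)
  hodge_ten : ∀ v (A B : T.C v),
    (T.slopes v).hodge (ten v A B) = sums ((T.slopes v).hodge A) ((T.slopes v).hodge B)
  bounded : ∀ (A : Type) [CommRing A] [Algebra F A] [Algebra.FiniteType F A] v,
    {n : ℤ | ¬ IsZero (T.H v n (aff F A))}.Finite
  kunneth : ∀ (A B : Type) [CommRing A] [Algebra F A] [Algebra.FiniteType F A] [CommRing B]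
    [Algebra F B] [Algebra.FiniteType F B] v (n : ℤ) (S : Finset ℤ),
    (∀ i, i ∉ S → IsZero (T.H v i (aff F A))) →
    IsSum S (fun i => ten v (T.H v i (aff F A)) (T.H v (n - i) (aff F B)))
      (T.H v n (aff F (A ⊗[F] B)))
  covering : ∀ (A : Type) [CommRing A] [Algebra F A] [Algebra.FiniteType F A] (d : ℕ) (u : A), 0 < d →
    IsUnit u → ∀ v n, IsRetract (T.H v n (aff F A)) (T.H v n (aff F (Cyc A d u)))

variable {T : Realizations F} {ten : ∀ v, T.C v → T.C v → T.C v}

lemma ordinary_ten (hT : IsRealizationK T ten) (v : T.Place) {A B : T.C v}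
    (hA : (T.slopes v).Ordinary A) (hB : (T.slopes v).Ordinary B) :
    (T.slopes v).Ordinary (ten v A B) := by
  unfold Slopes.Ordinary at *
  rw [hT.newton_ten, hT.hodge_ten, hA, hB]

/-- products -/
lemma ord_prod (hT : IsRealizationK T ten) (v : T.Place) {A B : Type} [CommRing A]
    [Algebra F A] [Algebra.FiniteType F A] [CommRing B] [Algebra F B] [Algebra.FiniteType F B]
    (hA : OrdAt T v (aff F A)) (hB : OrdAt T v (aff F B)) : OrdAt T v (aff F (A ⊗[F] B)) := by
  intro n
  have hS := serre_ordinary (T.slopes v)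
  let S : Finset ℤ := (hT.bounded A v).toFinset
  have h1 : ∀ i, i ∉ S → IsZero (T.H v i (aff F A)) := by
    intro i hi
    by_contra h
    exact hi ((hT.bounded A v).mem_toFinset.mpr h)
  exact of_isSum hS (hT.kunneth A B v n S h1) fun i _ => ordinary_ten hT v (hA _) (hB _)

/-- coverings -/
lemma ord_cyc (hT : IsRealizationK T ten) (v : T.Place) {A : Type} [CommRing A]
    [Algebra F A] [Algebra.FiniteType F A] (d : ℕ) (u : A) (hd : 0 < d) (hu : IsUnit u)
    (h : OrdAt T v (aff F (Cyc A d u))) : OrdAt T v (aff F A) := by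
  intro n
  obtain ⟨s, r, hsr⟩ := hT.covering A d u hd hu v n
  have hm : Mono s := mono_of_mono_fac hsr
  exact (serre_ordinary (T.slopes v)).of_mono s (h n)

/-- the closure properties for affine schemes, along a filter of places -/
lemma ord_clk (hT : IsRealizationK T ten) (𝓕 : Filter T.Place) :
    ClK F fun A => ∀ᶠ v in 𝓕, OrdAt T v (aff F A) :=
  { Cl.of_bnd (bnd_filter 𝓕 (bnd_ord hT.toIsRealization)) with
    prod := fun hA hB => (hA.and hB).mono fun v hv => ord_prod hT v hv.1 hv.2
    cyc := fun d u hd hu h => h.mono fun v hv => ord_cyc hT v d u hd hu hv }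

/-- **The schemes built from the schemes of dimension at most `n`.** -/
theorem built_ord (hT : IsRealizationK T ten) (𝓕 : Filter T.Place) {n : ℕ}
    (h : ∀ (A : Type) [CommRing A] [Algebra F A] [Algebra.FiniteType F A], ringKrullDim A ≤ n →
      ∀ᶠ v in 𝓕, OrdAt T v (aff F A)) {X : Sch F} (hX : Pool.Agent.W5h68.BT.Built F n X) :
    ∀ᶠ v in 𝓕, OrdAt T v X := by
  have hP := bnd_filter 𝓕 (bnd_ord hT.toIsRealization)
  have hC := ord_clk hT 𝓕
  have h0 : ∀ {A : Type} [CommRing A] [Algebra F A], Aff F n A →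
      ∀ᶠ v in 𝓕, OrdAt T v (aff F A) := by
    intro A _ _ hA
    induction hA with
    | dim hd => exact h _ hd
    | iso e hA ih =>
      have := aff_ft hA
      exact hC.iso e ih
    | total f h1 h2 ih1 ih2 => exact hC.total f ih1 ih2
    | opened f h1 h2 ih1 ih2 => exact hC.opened f ih1 ih2
    | closed f h1 h2 ih1 ih2 => exact hC.closed f ih1 ih2
    | poly h ih => exact hC.poly ih
    | prod hA hB ih1 ih2 => exact hC.prod ih1 ih2
    | cyc d u hd hu h ih => exact hC.cyc d u hd hu ih
    | torus h ih => exact hP.torus _ ih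
  induction hX with
  | aff hA => exact h0 hA
  | iso hX e _ ih => exact hP.iso hX ⟨e⟩ ih
  | total i j hX ht _ _ ih1 ih2 => exact hP.total i j hX ht ih1 ih2
  | opened i j hX ht _ _ ih1 ih2 => exact hP.opened i j hX ht ih1 ih2
  | closed i j hX ht _ _ ih1 ih2 => exact hP.closed i j hX ht ih1 ih2

/-- The conjecture along a filter of places, in dimension at most `n` and for the schemes built from
schemes of dimension at most `n`. -/
theorem filter_iff [CharZero F] (hT : IsRealizationK T ten) {Q : Sch F → Prop}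
    (hQ : IsClass Q) {n : ℕ} (hM : ModelsIn Q n) (𝓕 : Filter T.Place) :
    (∀ X : Sch F, (Q X ∧ topologicalKrullDim X.left ≤ n) → ∀ᶠ v in 𝓕, OrdAt T v X) ↔
      ∀ X : Sch F, Pool.Agent.W5h68.BT.Built F n X → ∀ᶠ v in 𝓕, OrdAt T v X := by
  have hP := bnd_filter 𝓕 (bnd_ord hT.toIsRealization)
  constructor
  · intro h X hX
    refine built_ord hT 𝓕 (fun A _ _ _ hA => ?_) hX
    refine devissage hP hQ hM (fun Y hY hn => h Y ⟨hY, hn⟩) _ (ft_aff True) ?_
    rw [topDim_aff]
    exact hA
  · intro h X hX
    exact of_affine_dim hP (fun A _ _ _ hA => h _ (.aff (.dim hA))) X (hQ.ft hX.1) hX.2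

end Pool.Agent.H79.OR
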